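import Pool.Agent.Helper9.UP.StW

/-!
# Project UP: module NN, positivity of the main term
-/

set_option autoImplicit false

noncomputable section

namespace Pool.Agent.Helper48.UP

open Finset Pool.Agent.Helper9.UP

theorem NN_expand (P T : Finset ℕ) (hT : T ⊆ P) (g : ℕ → ℝ) :
    ∏ p ∈ T, g p = ∑ S ∈ P.powerset,
      ((∏ p ∈ S, g p) * ∏ p ∈ P \ S, (1 - g p)) * (if T ⊆ S then 1 else 0) := by
  classical
  have h1 : ∏ p ∈ P, (g p + (1 - g p) * (if p ∈ T then 0 else 1)) = ∏ p ∈ T, g p := by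
    have h2 : ∀ p ∈ P, (g p + (1 - g p) * (if p ∈ T then (0 : ℝ) else 1)) =
        if p ∈ T then g p else 1 := by
      intro p _
      split_ifs <;> ring
    rw [Finset.prod_congr rfl h2, Finset.prod_ite_mem, Finset.inter_eq_right.2 hT]
  rw [← h1, Finset.prod_add]
  apply Finset.sum_congr rfl
  intro S hS
  rw [Finset.prod_mul_distrib, ← mul_assoc]
  congr 1
  by_cases hTS : T ⊆ S
  · rw [if_pos hTS]
    apply Finset.prod_eq_one
    intro p hp
    rw [if_neg]
    intro hpT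
    exact (Finset.mem_sdiff.1 hp).2 (hTS hpT)
  · rw [if_neg hTS]
    obtain ⟨p, hpT, hpS⟩ := Finset.not_subset.1 hTS
    apply Finset.prod_eq_zero (i := p)
    · exact Finset.mem_sdiff.2 ⟨hT hpT, hpS⟩
    · rw [if_pos hpT]

theorem NN_dvd (P : Finset ℕ) (hP : ∀ p ∈ P, p.Prime) (q : ℕ) (hq : Squarefree q) (S : Finset ℕ)
    (hS : S ⊆ P) : q ∣ ∏ p ∈ S, p ↔ q.primeFactors ⊆ S := by
  have hS' : ∀ p ∈ S, p.Prime := fun p hp => hP p (hS hp)
  have hne : ∏ p ∈ S, p ≠ 0 := Finset.prod_ne_zero_iff.2 fun p hp => (hS' p hp).ne_zero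
  constructor
  · intro h p hp
    have hpp := Nat.prime_of_mem_primeFactors hp
    have h2 : p ∣ ∏ p ∈ S, p := (Nat.dvd_of_mem_primeFactors hp).trans h
    obtain ⟨r, hr, hpr⟩ := (hpp.prime.dvd_finset_prod_iff _).1 h2
    rwa [(Nat.prime_dvd_prime_iff_eq hpp (hS' r hr)).1 hpr]
  · intro h
    rw [← Nat.prod_primeFactors_of_squarefree hq]
    exact Finset.prod_dvd_prod_of_subset _ _ _ h

theorem hNN : StNN := by
  intro X ω x B j0 j g l hX hx hW hpos hg
  classical
  obtain ⟨P, hPdef⟩ : ∃ P, P = Pr X ω j0 j := ⟨_, rfl⟩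
  have hP : ∀ p ∈ P, p.Prime := by
    intro p hp
    rw [hPdef] at hp
    unfold Pr at hp
    obtain ⟨i, _, hi⟩ := Finset.mem_biUnion.1 hp
    unfold bx at hi
    exact (Finset.mem_filter.1 hi).2.1
  have hl : ∀ q, l q ≠ 0 → Squarefree q ∧ q.primeFactors ⊆ P ∧ (q : ℝ) ≤ X ^ 2 := by
    intro q hq
    obtain ⟨⟨h1, h2⟩, h3⟩ := (hW q).2 hq
    refine ⟨h1, fun p hp => ?_, h3.trans ?_⟩
    · rw [hPdef]
      exact h2 p (Nat.prime_of_mem_primeFactors hp) (Nat.dvd_of_mem_primeFactors hp)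
    · rw [← Real.rpow_natCast]
      exact Real.rpow_le_rpow_of_exponent_le (by linarith) (by push_cast; exact hx)
  have key : ∀ q, l q * GG g q = ∑ S ∈ P.powerset,
      ((∏ p ∈ S, g p) * ∏ p ∈ P \ S, (1 - g p)) * (if q ∣ ∏ p ∈ S, p then l q else 0) := by
    intro q
    by_cases hq : l q = 0
    · rw [hq, zero_mul, Finset.sum_eq_zero]
      intro S _
      simp
    · obtain ⟨h1, h2, _⟩ := hl q hq
      unfold GG
      rw [NN_expand P _ h2 g, Finset.mul_sum]
      apply Finset.sum_congr rfl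
      intro S hS
      have h3 := NN_dvd P hP q h1 S (Finset.mem_powerset.1 hS)
      by_cases h4 : q.primeFactors ⊆ S
      · rw [if_pos h4, if_pos (h3.2 h4)]
        ring
      · rw [if_neg h4, if_neg (fun h => h4 (h3.1 h))]
        ring
  unfold ms
  rw [Finset.sum_congr rfl fun q _ => key q, Finset.sum_comm]
  apply Finset.sum_nonneg
  intro S hS
  rw [← Finset.mul_sum]
  apply mul_nonneg
  · apply mul_nonneg
    · exact Finset.prod_nonneg fun p _ => (hg p).1
    · exact Finset.prod_nonneg fun p _ => by linarith [(hg p).2]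
  · have hne : ∏ p ∈ S, p ≠ 0 :=
      Finset.prod_ne_zero_iff.2 fun p hp => (hP p (Finset.mem_powerset.1 hS hp)).ne_zero
    rw [← Finset.sum_filter]
    have h1 : ∑ q ∈ (range (⌊X ^ 2⌋₊ + 1)).filter (fun q => q ∣ ∏ p ∈ S, p), l q =
        ∑ q ∈ (∏ p ∈ S, p).divisors, l q := by
      apply Finset.sum_subset
      · intro q hq
        rw [Finset.mem_filter] at hq
        exact Nat.mem_divisors.2 ⟨hq.2, hne⟩
      · intro q hq hq2
        by_contra h0
        apply hq2
        rw [Finset.mem_filter, Finset.mem_range]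
        refine ⟨?_, (Nat.mem_divisors.1 hq).1⟩
        have := Nat.le_floor (hl q h0).2.2
        omega
    rw [h1]
    exact hpos _ (Nat.pos_of_ne_zero hne)

end Pool.Agent.Helper48.UP
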